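import Pool.Agent.MWG.Stmts

/-!
# Block MWG, row EBX (MP_23468a_al)
-/

namespace Pool.Agent.MWG.H80

open Pool.Agent.Helper14_MV Pool.Agent.Helper2_MV Pool.Agent.MVO Pool.Agent.MWL Pool.Agent.MWS
  Pool.Agent.MWG

/-- the word before the block -/
def PP (a b : ℕ → ℕ) (i : ℕ) : List ℕ := pre (cb a b i []) i

/-- the word behind the block -/
def QQ (k : ℕ) (a b : ℕ → ℕ) (i : ℕ) : List ℕ := suf (cb a b i []) i (k - i)

theorem cb_self (a b : ℕ → ℕ) (i : ℕ) (l : List ℕ) : cb a b i l i = l := by
  unfold cb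
  rw [if_pos rfl]

theorem cb_ne (a b : ℕ → ℕ) {i j : ℕ} (l l' : List ℕ) (h : j ≠ i) :
    cb a b i l j = cb a b i l' j := by
  unfold cb
  rw [if_neg h, if_neg h]

theorem w_eq {k i : ℕ} (h : i ≤ k) (a b : ℕ → ℕ) (l : List ℕ) :
    asm k (cb a b i l) = PP a b i ++ l ++ QQ k a b i := by
  rw [asm_split h, cb_self]
  unfold PP QQ
  rw [pre_congr (B' := cb a b i []) (fun j hj => cb_ne a b l [] (by omega)),
    suf_congr (B' := cb a b i []) (fun j h1 _ => cb_ne a b l [] (by omega))]

theorem cnt {k i : ℕ} (h : i ≤ k) {a b : ℕ → ℕ} {l : List ℕ} (ho : OkB k (cb a b i l)) {c : ℕ}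
    (hc : c ∈ l) : 2 ≤ (PP a b i ++ l ++ QQ k a b i).count c := by
  have hc' : c ∈ cb a b i l i := by
    rw [cb_self]
    exact hc
  rw [← w_eq h, count_asm (ho.ok i h c hc')]
  exact ho.ml i h c hc'

theorem ebx (cbt : CbtStmt) (cbn : CbnStmt) (eet : EetStmt) : EbxStmt := by
  intro β θ hβ hle hE k a b i hR
  have hik : i ≤ k := hR.vis.1
  by_cases hl : Lf b i
  · have ha : Adm b i [0, 1] :=
      ⟨by simp, by decide, fun _ => by decide, fun h => absurd hl h⟩
    have ho := (cbt k a b i [0, 1] hR ha).1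
    have c0 := cnt hik ho (c := 0) (by simp)
    have c1 := cnt hik ho (c := 1) (by simp)
    have h1 := eet β θ hβ hle hE (PP a b i) (QQ k a b i) 0 1 (by simpa using c0) (by simpa using c1)
    have h2 : RR θ (asm k (cb a b i [0, 1])) (asm k (cb a b i [1, 0])) := by
      rw [w_eq hik, w_eq hik]
      simpa using h1
    constructor
    · unfold XL eL mL
      rw [if_pos hl]
      exact h2
    · unfold XR eR mR
      rw [if_pos hl]
      exact h2
  · have ad : ∀ l : List ℕ, (∀ c ∈ l, c = 0 ∨ c = 1) → l.count 0 = 1 → 2 ≤ l.count 1 →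
        Adm b i l := fun l h1 h2 h3 => ⟨h1, h2, fun h => absurd h hl, fun _ => h3⟩
    have a1 : Adm b i [1, 1, 0] := ad _ (by simp) (by decide) (by decide)
    have a2 : Adm b i [0, 1, 1] := ad _ (by simp) (by decide) (by decide)
    have a3 : Adm b i [1, 0, 1] := ad _ (by simp) (by decide) (by decide)
    have a4 : Adm b i [1, 1, 0, 1, 1] := ad _ (by simp) (by decide) (by decide)
    have o1 := (cbt k a b i _ hR a1).1
    have o2 := (cbt k a b i _ hR a2).1
    obtain ⟨o3, t3, e3, e3'⟩ := cbt k a b i _ hR a3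
    -- the left word
    have h1 : RR θ (asm k (cb a b i [1, 1, 0])) (asm k (cb a b i [1, 0, 1])) := by
      have c0 := cnt hik o1 (c := 0) (by simp)
      have c1 := cnt hik o1 (c := 1) (by simp)
      have e : PP a b i ++ [1, 1, 0] ++ QQ k a b i = (PP a b i ++ [1]) ++ 1 :: 0 :: QQ k a b i := by
        simp
      rw [e] at c0 c1
      have h := eet β θ hβ hle hE (PP a b i ++ [1]) (QQ k a b i) 1 0 c1 c0
      rw [w_eq hik, w_eq hik]
      simpa using h
    -- the right word
    have h2 : RR θ (asm k (cb a b i [0, 1, 1])) (asm k (cb a b i [1, 0, 1])) := by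
      have c0 := cnt hik o2 (c := 0) (by simp)
      have c1 := cnt hik o2 (c := 1) (by simp)
      have e : PP a b i ++ [0, 1, 1] ++ QQ k a b i = PP a b i ++ 0 :: 1 :: (1 :: QQ k a b i) := by
        simp
      rw [e] at c0 c1
      have h := eet β θ hβ hle hE (PP a b i) (1 :: QQ k a b i) 0 1 c0 c1
      rw [w_eq hik, w_eq hik]
      simpa using h
    -- the middle words
    have h3 : RR β (asm k (cb a b i [1, 0, 1])) (asm k (cb a b i [1, 1, 0, 1, 1])) := by
      refine cbn β hβ k (cb a b i [1, 0, 1]) a b i [1, 1, 0, 1, 1] o3 t3 e3 e3' hR a4 ?_ ?_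
      · rw [cb_self]
        constructor
        · intro h
          exact absurd (by simp) (h [] [0, 1] rfl)
        · intro h
          exact absurd (by simp) (h [] [1, 0, 1, 1] rfl)
      · rw [cb_self]
        constructor
        · intro h
          exact absurd (by simp) (h [1] [1] rfl)
        · intro h
          exact absurd (by simp) (h [1, 1] [1, 1] rfl)
    have h3' : RR θ (asm k (cb a b i [1, 0, 1])) (asm k (cb a b i [1, 1, 0, 1, 1])) :=
      hle _ _ h3
    constructor
    · unfold XL eL mL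
      rw [if_neg hl]
      exact θ.trans h1 h3'
    · unfold XR eR mR
      rw [if_neg hl]
      exact θ.trans h3'.symm h2.symm

end Pool.Agent.MWG.H80
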